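import Pool.Agent.Q264.CB.Stm

/-!
# Project CB (helper264), job CB-SUPP: the support function of an ellipse
-/

set_option autoImplicit false

namespace Pool.Agent.Q123.CB

open Pool.Agent.Q264.CB

theorem circle_sq (u : Circle) : (u : ℂ).re ^ 2 + (u : ℂ).im ^ 2 = 1 := by
  have h := Circle.normSq_coe u
  rw [Complex.normSq_apply] at h
  nlinarith

theorem rt_sq (a b : ℝ) (u : Circle) : rt a b u ^ 2 = (a * (u : ℂ).re) ^ 2 + (b * (u : ℂ).im) ^ 2 := by
  unfold rt
  exact Real.sq_sqrt (by positivity)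

theorem rt_pos {a b : ℝ} (ha : 0 < a) (hb : 0 < b) (u : Circle) : 0 < rt a b u := by
  unfold rt
  refine Real.sqrt_pos.2 ?_
  have h := circle_sq u
  by_contra hcon
  have h1 : (a * (u : ℂ).re) ^ 2 = 0 := by nlinarith [sq_nonneg (a * (u : ℂ).re), sq_nonneg (b * (u : ℂ).im)]
  have h2 : (b * (u : ℂ).im) ^ 2 = 0 := by nlinarith [sq_nonneg (a * (u : ℂ).re), sq_nonneg (b * (u : ℂ).im)]
  have h3 : (u : ℂ).re = 0 := by
    have := pow_eq_zero_iff (two_ne_zero) |>.1 h1
    exact (mul_eq_zero.1 this).resolve_left ha.ne'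
  have h4 : (u : ℂ).im = 0 := by
    have := pow_eq_zero_iff (two_ne_zero) |>.1 h2
    exact (mul_eq_zero.1 this).resolve_left hb.ne'
  rw [h3, h4] at h
  norm_num at h

theorem ball_sq {w : ℂ} (hw : w ∈ Metric.closedBall (0 : ℂ) 1) : w.re ^ 2 + w.im ^ 2 ≤ 1 := by
  rw [mem_closedBall_zero_iff] at hw
  have h := Complex.sq_norm w
  rw [Complex.normSq_apply] at h
  nlinarith [norm_nonneg w]

theorem le_supp {a b t : ℝ} (ha : 0 < a) (hb : 0 < b) (u : Circle) {w : ℂ} (hw : w ∈ Metric.closedBall (0 : ℂ) 1) :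
    ip ⟨a * w.re, b * w.im + t⟩ u ≤ t * (u : ℂ).im + rt a b u ∧
    (ip ⟨a * w.re, b * w.im + t⟩ u = t * (u : ℂ).im + rt a b u →
      rt a b u * w.re = a * (u : ℂ).re ∧ rt a b u * w.im = b * (u : ℂ).im) := by
  have hN := rt_pos ha hb u
  have hN2 := rt_sq a b u
  have hw1 := ball_sq hw
  unfold ip
  set N := rt a b u
  set c := (u : ℂ).re
  set s := (u : ℂ).im
  simp only
  have key : (a * w.re * c + b * w.im * s) ^ 2 + (a * c * w.im - b * s * w.re) ^ 2 = N ^ 2 * (w.re ^ 2 + w.im ^ 2) := by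
    rw [hN2]
    ring
  have h1 : N ^ 2 * (w.re ^ 2 + w.im ^ 2) ≤ N ^ 2 := by nlinarith [sq_nonneg N]
  have h2 : a * w.re * c + b * w.im * s ≤ N := by
    refine le_of_sq_le_sq ?_ hN.le |> fun h => h
    nlinarith [sq_nonneg (a * c * w.im - b * s * w.re)]
  refine ⟨by linarith, fun h => ?_⟩
  have h3 : a * w.re * c + b * w.im * s = N := by linarith
  have h4 : a * c * w.im - b * s * w.re = 0 := by
    rw [h3] at key
    have : (a * c * w.im - b * s * w.re) ^ 2 ≤ 0 := by linarith
    exact pow_eq_zero_iff two_ne_zero |>.1 (le_antisymm this (sq_nonneg _))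
  constructor
  · have h5 : N * (N * w.re) = N * (a * c) := by
      calc N * (N * w.re) = N ^ 2 * w.re := by ring
        _ = a * c * (a * w.re * c + b * w.im * s) - b * s * (a * c * w.im - b * s * w.re) := by
            rw [hN2]
            ring
        _ = _ := by
            rw [h3, h4]
            ring
    exact mul_left_cancel₀ hN.ne' h5
  · have h5 : N * (N * w.im) = N * (b * s) := by
      calc N * (N * w.im) = N ^ 2 * w.im := by ring
        _ = b * s * (a * w.re * c + b * w.im * s) + a * c * (a * c * w.im - b * s * w.re) := by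
            rw [hN2]
            ring
        _ = _ := by
            rw [h3, h4]
            ring
    exact mul_left_cancel₀ hN.ne' h5

theorem supp_body {a b t : ℝ} (ha : 0 < a) (hb : 0 < b) (u : Circle) :
    supp (body a b t) u = t * (u : ℂ).im + rt a b u := by
  have hN := rt_pos ha hb u
  have hN2 := rt_sq a b u
  unfold supp
  refine IsGreatest.csSup_eq ⟨?_, ?_⟩
  · refine ⟨⟨a * (a * (u : ℂ).re / rt a b u), b * (b * (u : ℂ).im / rt a b u) + t⟩, ?_, ?_⟩
    · refine ⟨⟨a * (u : ℂ).re / rt a b u, b * (u : ℂ).im / rt a b u⟩, ?_, rfl⟩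
      rw [mem_closedBall_zero_iff]
      have h1 : ‖(⟨a * (u : ℂ).re / rt a b u, b * (u : ℂ).im / rt a b u⟩ : ℂ)‖ ^ 2 = 1 := by
        rw [Complex.sq_norm, Complex.normSq_apply]
        simp only
        have h2 : a * (u : ℂ).re / rt a b u * (a * (u : ℂ).re / rt a b u) +
            b * (u : ℂ).im / rt a b u * (b * (u : ℂ).im / rt a b u) =
            ((a * (u : ℂ).re) ^ 2 + (b * (u : ℂ).im) ^ 2) / rt a b u ^ 2 := by
          field_simp
        rw [h2, ← hN2]
        exact div_self (by positivity)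
      nlinarith [norm_nonneg (⟨a * (u : ℂ).re / rt a b u, b * (u : ℂ).im / rt a b u⟩ : ℂ)]
    · unfold ip
      simp only
      have h1 : a * (a * (u : ℂ).re / rt a b u) * (u : ℂ).re + (b * (b * (u : ℂ).im / rt a b u) + t) * (u : ℂ).im =
          t * (u : ℂ).im + ((a * (u : ℂ).re) ^ 2 + (b * (u : ℂ).im) ^ 2) / rt a b u := by
        field_simp
        ring
      rw [h1, ← hN2, sq, mul_div_assoc, div_self hN.ne', mul_one]
  · rintro _ ⟨_, ⟨w, hw, rfl⟩, rfl⟩
    exact (le_supp ha hb u hw).1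

theorem t_SUPP : S_SUPP := by
  intro a b t ha hb
  refine ⟨supp_body ha hb, ?_, ?_, ?_, ?_⟩
  · rintro u _ ⟨w, hw, rfl⟩ h
    rw [supp_body ha hb] at h
    obtain ⟨h1, h2⟩ := (le_supp ha hb u hw).2 h
    have hN := rt_pos ha hb u
    simp only
    constructor
    · rw [eq_div_iff hN.ne']
      linear_combination a * h1
    · have h3 : b ^ 2 * (u : ℂ).im / rt a b u = b * w.im := by
        rw [div_eq_iff hN.ne']
        linear_combination -b * h2
      rw [h3]
      ring
  · exact (Metric.nonempty_closedBall.2 zero_le_one).image _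
  · refine (isCompact_closedBall (0 : ℂ) 1).image ?_
    have e : (fun z : ℂ => (⟨a * z.re, b * z.im + t⟩ : ℂ)) =
        fun z : ℂ => ((a * z.re : ℝ) : ℂ) + ((b * z.im + t : ℝ) : ℂ) * Complex.I := by
      funext z
      apply Complex.ext <;> simp
    rw [e]
    fun_prop
  · rintro _ ⟨x, hx, rfl⟩ _ ⟨y, hy, rfl⟩ α β hα hβ hαβ
    refine ⟨α • x + β • y, convex_closedBall (0 : ℂ) 1 hx hy hα hβ hαβ, ?_⟩
    apply Complex.ext
    · simp
      ring
    · simp
      linear_combination (-t) * hαβ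

end Pool.Agent.Q123.CB
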