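import Pool.Agent.Q264.CB.Stm

/-!
# Project CB (helper264), job CB-TOP: homeomorphisms of the cylinder and graphs
-/

set_option autoImplicit false

namespace Pool.Agent.Q123.CB

open Pool.Agent.Q264.CB

theorem circle_preconnected : IsPreconnected (Set.univ : Set Circle) := by
  have h : Set.range (Circle.exp : ℝ → Circle) = Set.univ := by
    rw [Set.eq_univ_iff_forall]
    intro u
    exact ⟨Complex.arg u, Circle.exp_arg u⟩
  rw [← h]
  exact isPreconnected_range Circle.exp.continuous

theorem pre_up {F : Circle → ℝ} (hF : Continuous F) : IsPreconnected {p : Circle × ℝ | F p.1 < p.2} := by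
  have h := (circle_preconnected.prod (isPreconnected_Ioi (a := (0 : ℝ)))).image
    (fun p : Circle × ℝ => (p.1, p.2 + F p.1)) (by fun_prop)
  convert h using 1
  ext ⟨u, y⟩
  constructor
  · intro hy
    exact ⟨(u, y - F u), ⟨Set.mem_univ _, show (0 : ℝ) < y - F u from sub_pos.2 hy⟩, by simp⟩
  · rintro ⟨⟨u', y'⟩, ⟨_, hy'⟩, he⟩
    simp only [Prod.mk.injEq] at he
    obtain ⟨rfl, rfl⟩ := he
    have : (0 : ℝ) < y' := hy'
    show F u' < y' + F u'
    linarith

theorem pre_low {F : Circle → ℝ} (hF : Continuous F) : IsPreconnected {p : Circle × ℝ | p.2 < F p.1} := by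
  have h := (circle_preconnected.prod (isPreconnected_Iio (a := (0 : ℝ)))).image
    (fun p : Circle × ℝ => (p.1, p.2 + F p.1)) (by fun_prop)
  convert h using 1
  ext ⟨u, y⟩
  constructor
  · intro hy
    exact ⟨(u, y - F u), ⟨Set.mem_univ _, show y - F u < (0 : ℝ) from sub_neg.2 hy⟩, by simp⟩
  · rintro ⟨⟨u', y'⟩, ⟨_, hy'⟩, he⟩
    simp only [Prod.mk.injEq] at he
    obtain ⟨rfl, rfl⟩ := he
    have : y' < (0 : ℝ) := hy'
    show y' + F u' < F u'
    linarith

theorem t_TOP : S_TOP := by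
  intro φ F G hF hG hY hφ
  obtain ⟨Y, hY⟩ := hY
  have hUG : IsOpen {p : Circle × ℝ | G p.1 < p.2} := isOpen_lt (hG.comp continuous_fst) continuous_snd
  have hLG : IsOpen {p : Circle × ℝ | p.2 < G p.1} := isOpen_lt continuous_snd (hG.comp continuous_fst)
  have hdis : Disjoint {p : Circle × ℝ | G p.1 < p.2} {p : Circle × ℝ | p.2 < G p.1} := by
    rw [Set.disjoint_left]
    intro p h1 h2
    exact lt_asymm (show G p.1 < p.2 from h1) h2
  have hiff : ∀ p : Circle × ℝ, (φ p).2 = G (φ p).1 ↔ p.2 = F p.1 := by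
    intro p
    constructor
    · intro h
      have h1 : φ p ∈ φ '' {p | p.2 = F p.1} := by
        rw [hφ]
        exact h
      obtain ⟨q, hq, he⟩ := h1
      rw [← φ.injective he]
      exact hq
    · intro h
      have h1 : φ p ∈ φ '' {p | p.2 = F p.1} := ⟨p, h, rfl⟩
      rw [hφ] at h1
      exact h1
  have hsub : ∀ s : Set (Circle × ℝ), (∀ p ∈ s, p.2 ≠ F p.1) →
      φ '' s ⊆ {p : Circle × ℝ | G p.1 < p.2} ∪ {p : Circle × ℝ | p.2 < G p.1} := by
    rintro s hs _ ⟨p, hp, rfl⟩
    rcases lt_trichotomy (φ p).2 (G (φ p).1) with h | h | h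
    · exact Or.inr h
    · exact absurd ((hiff p).1 h) (hs p hp)
    · exact Or.inl h
  -- the upper part
  have hU : φ '' {p : Circle × ℝ | F p.1 < p.2} ⊆ {p : Circle × ℝ | G p.1 < p.2} := by
    rcases ((pre_up hF).image φ φ.continuous.continuousOn).subset_or_subset hUG hLG hdis
      (hsub _ fun p hp => (show F p.1 < p.2 from hp).ne') with h | h
    · exact h
    · exfalso
      obtain ⟨M, hM⟩ := (isCompact_range hF).bddAbove
      obtain ⟨M', hM'⟩ := (isCompact_range hG).bddAbove
      have hK : IsCompact ((fun p : Circle × ℝ => (φ.symm p).2) '' (Set.univ ×ˢ Set.Icc (0 : ℝ) M')) :=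
        (isCompact_univ.prod isCompact_Icc).image (continuous_snd.comp φ.symm.continuous)
      obtain ⟨B, hB⟩ := hK.bddAbove
      set y := max (max Y (M + 1)) (B + 1) with hy
      have h1 : Y ≤ y := (le_max_left _ _).trans (le_max_left _ _)
      have h2 : M + 1 ≤ y := (le_max_right _ _).trans (le_max_left _ _)
      have h3 : B + 1 ≤ y := le_max_right _ _
      have h4 : φ (1, y) ∈ {p : Circle × ℝ | p.2 < G p.1} := by
        refine h ⟨(1, y), ?_, rfl⟩
        have h5 : F 1 ≤ M := hM ⟨1, rfl⟩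
        show F 1 < y
        linarith
      have h5 : (φ (1, y)).2 < G (φ (1, y)).1 := h4
      have h6 : G (φ (1, y)).1 ≤ M' := hM' ⟨_, rfl⟩
      have h7 := hY 1 y h1
      have h8 : y ≤ B := by
        refine hB ⟨φ (1, y), ⟨Set.mem_univ _, h7.le, by linarith⟩, ?_⟩
        simp
      linarith
  have hL : φ '' {p : Circle × ℝ | p.2 < F p.1} ⊆ {p : Circle × ℝ | p.2 < G p.1} := by
    rcases ((pre_low hF).image φ φ.continuous.continuousOn).subset_or_subset hUG hLG hdis
      (hsub _ fun p hp => (show p.2 < F p.1 from hp).ne) with h | h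
    · exfalso
      obtain ⟨q, hq⟩ := φ.surjective (1, G 1 - 1)
      have h1 : (φ q).2 < G (φ q).1 := by
        rw [hq]
        show G 1 - 1 < G 1
        linarith
      rcases lt_trichotomy q.2 (F q.1) with h2 | h2 | h2
      · have h3 : G (φ q).1 < (φ q).2 := h ⟨q, h2, rfl⟩
        exact lt_asymm h1 h3
      · have h3 := (hiff q).2 h2
        exact h1.ne h3
      · have h3 : G (φ q).1 < (φ q).2 := hU ⟨q, h2, rfl⟩
        exact lt_asymm h1 h3
    · exact h
  exact fun p => ⟨fun h => hU ⟨p, h, rfl⟩, fun h => hL ⟨p, h, rfl⟩⟩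

end Pool.Agent.Q123.CB
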